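import Pool.Agent.SOCX.Red

/-!
# Deciding convexity of coordinate projections of `SO(n)` is coNP-hard
-/

namespace Pool.Agent.Results.MP_ffc974_lc.ConvexityHard

open Pool.Agent.TM2Lib Matrix

/-! ## Decision problems -/

/-- A decision problem: its instances, a coding of the instances by bit strings, and the set of
yes-instances.  Only codes of instances are inputs. -/
structure DecProb where
  /-- instances -/
  Inst : Type
  /-- coding of the instances -/
  code : Inst → List Bool
  /-- yes-instances -/
  yes : Inst → Prop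

/-- The bit string coding an object (see `Enc`: numbers are coded by their binary digits, lists by
right-nested pairs, and the resulting binary tree is written in prefix code). -/
def code {α : Type} [Enc α] (a : α) : List Bool := D.encD (enc a)

/-- `f` is computable in polynomial time, inputs being coded by `ca` and outputs by `cb`. -/
def PolyTime {α β : Type} (ca : α → List Bool) (cb : β → List Bool) (f : α → β) : Prop :=
  Nonempty (Turing.TM2ComputableInPolyTime ca cb f)

/-- `Q` is in P: it can be decided in polynomial time. -/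
def InP (Q : DecProb) : Prop :=
  ∃ f : Q.Inst → Bool, PolyTime Q.code (fun b => [b]) f ∧ ∀ x, f x = true ↔ Q.yes x

/-- `Q` is in NP: it has polynomial-time verifiable certificates of polynomial length. -/
def InNP (Q : DecProb) : Prop :=
  ∃ (V : Q.Inst × List Bool → Bool) (p : Polynomial ℕ),
    PolyTime (fun z : Q.Inst × List Bool => code (Q.code z.1, z.2)) (fun b => [b]) V ∧
    ∀ x, Q.yes x ↔ ∃ y : List Bool, y.length ≤ p.eval (Q.code x).length ∧ V (x, y) = true

/-- A language as a decision problem: every string is an instance. -/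
def Lang (L : Set (List Bool)) : DecProb := ⟨List Bool, id, fun x => x ∈ L⟩

/-- Polynomial-time many-one reducibility. -/
def Reduces (Q R : DecProb) : Prop :=
  ∃ f : Q.Inst → R.Inst, PolyTime Q.code R.code f ∧ ∀ x, Q.yes x ↔ R.yes (f x)

/-- Polynomial-time reducibility with one query (a truth-table reduction, in particular a Turing
reduction): compute in polynomial time an instance `f x` of `R`, ask whether it is a yes-instance,
and compute the answer `g (x, b)` in polynomial time from `x` and the answer `b` of the query. -/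
def ReducesOneQuery (Q R : DecProb) : Prop :=
  ∃ (f : Q.Inst → R.Inst) (g : Q.Inst × Bool → Bool),
    PolyTime Q.code R.code f ∧
    PolyTime (fun z : Q.Inst × Bool => code (Q.code z.1, z.2)) (fun b => [b]) g ∧
    ∀ x, ∀ b : Bool, (b = true ↔ R.yes (f x)) → (Q.yes x ↔ g (x, b) = true)

/-- Every language in coNP reduces to `R` by a many-one reduction. -/
def CoNPHard (R : DecProb) : Prop :=
  ∀ L : Set (List Bool), InNP (Lang Lᶜ) → Reduces (Lang L) R

/-- Every language in NP reduces to `R` in polynomial time with one query. -/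
def NPHardOneQuery (R : DecProb) : Prop :=
  ∀ L : Set (List Bool), InNP (Lang L) → ReducesOneQuery (Lang L) R

/-! ## The problem CONVEX -/

/-- The rotation group `SO(n)`. -/
def SO (n : ℕ) : Set (Matrix (Fin n) (Fin n) ℝ) := {X | Xᵀ * X = 1 ∧ X.det = 1}

/-- The image of `SO(n)` under the projection to the coordinates in `S`, a subset of `ℝ^S`. -/
def proj (n : ℕ) (S : Set (Fin n × Fin n)) : Set (S → ℝ) :=
  (fun X (p : S) => X p.1.1 p.1.2) '' SO n

/-- `(n, l)` is an instance: `n` is positive and `l` is a list of positions of an `n × n` matrix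
(rows and columns are numbered from `0`). -/
def IsInst (p : ℕ × List (ℕ × ℕ)) : Prop := 0 < p.1 ∧ ∀ q ∈ p.2, q.1 < p.1 ∧ q.2 < p.1

/-- The set of positions of an instance. -/
def positions (p : ℕ × List (ℕ × ℕ)) : Set (Fin p.1 × Fin p.1) :=
  {q | ((q.1 : ℕ), (q.2 : ℕ)) ∈ p.2}

/-- The code of an instance: `n` in unary (as a list of length `n`) and the list of positions, the
rows and columns being given by their binary digits. -/
def instCode (p : ℕ × List (ℕ × ℕ)) : List Bool := code (List.replicate p.1 (), p.2)

/-- CONVEX: given `n` and a set `S` of positions, is the projection of `SO(n)` to the coordinates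
in `S` convex? -/
def CONVEX : DecProb where
  Inst := {p : ℕ × List (ℕ × ℕ) // IsInst p}
  code := fun p => instCode p.1
  yes := fun p => Convex ℝ (proj p.1.1 (positions p.1))

/-! ## Proof -/

theorem pairCode_eq (p : List Bool × List Bool) : code p = NPC.pairCode p := by
  obtain ⟨s, y⟩ := p
  show D.encD (D.cons (enc s) (enc y)) = D.encD (D.cons (D.ofBits s) (D.ofBits y))
  rw [NPC.enc_eq_ofBits, NPC.enc_eq_ofBits]

theorem inNP_iff (Q : DecProb) : InNP Q ↔ NPC.InNP ⟨Q.Inst, Q.code, Q.yes⟩ := by
  unfold InNP NPC.InNP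
  simp only [pairCode_eq]
  exact Iff.rfl

theorem poly_red : Poly (fun φ : List NPC.Clause => (un (SOCX.red φ).1, (SOCX.red φ).2)) := by
  have hN : UPoly (fun φ : List NPC.Clause => 3 * φ.length + 3) :=
    ((UPoly.const 3).mul (UPoly.length Poly.id)).add (UPoly.const 3)
  have hg : UPoly (fun φ : List NPC.Clause => (SOCX.red φ).1) :=
    ((UPoly.const 16).mul (hN.mul hN)).sub (UPoly.const 4)
  exact Poly.pair hg.list SOCX.poly_red.snd'

theorem red_ok (φ : List NPC.Clause) : IsInst (SOCX.red φ) := by
  have h1 := SOCX.posL_lt (N := 3 * φ.length + 3) (M := φ.length) (by omega) (SOCX.cf φ)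
  have h2 := SOCX.gad_card_lt (N := 3 * φ.length + 3) (by omega)
  exact ⟨lt_of_le_of_lt (Nat.zero_le _) h2, h1⟩

/-- 3-SAT reduces to non-convexity. -/
theorem sat3_reduces : NPC.Reduces NPC.SAT3 ⟨CONVEX.Inst, CONVEX.code,
    fun p => ¬ CONVEX.yes p⟩ := by
  refine ⟨fun φ => ⟨SOCX.red φ.1, red_ok φ.1⟩, ?_, ?_⟩
  · exact NPC.polyTime_of_comp (Comp.reindex poly_red
      (fun φ : {φ : List NPC.Clause // ∀ c ∈ φ, c.Dist} => φ.1))
  · intro φ
    have h := SOCX.red_iff φ.1
    exact (not_iff_comm.1 h.symm).symm

/-- Every language in NP reduces to non-convexity. -/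
theorem np_reduces (L : Set (List Bool)) (hL : InNP (Lang L)) :
    ∃ f : List Bool → CONVEX.Inst, PolyTime id CONVEX.code f ∧
      ∀ x, x ∈ L ↔ ¬ CONVEX.yes (f x) := by
  have h1 := NPC.sat3_hard L ((inNP_iff _).1 hL)
  exact h1.trans sat3_reduces

theorem coNPHard : CoNPHard CONVEX := by
  intro L hL
  obtain ⟨f, hf, hf'⟩ := np_reduces Lᶜ hL
  refine ⟨f, hf, fun (x : List Bool) => ?_⟩
  have h1 := hf' x
  rw [Set.mem_compl_iff] at h1
  exact not_iff_not.1 h1

theorem poly_neg : PolyTime (fun z : List Bool × Bool => code (z.1, z.2)) (fun b => [b])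
    (fun z : List Bool × Bool => !z.2) := by
  have h : Poly (fun z : List Bool × Bool => !z.2) := Poly.not Poly.id.snd'
  exact NPC.polyTime_of_comp (NPC.comp_bitCode h)

theorem npHardOneQuery : NPHardOneQuery CONVEX := by
  intro L hL
  obtain ⟨f, hf, hf'⟩ := np_reduces L hL
  refine ⟨f, fun z => !z.2, hf, poly_neg, fun (x : List Bool) b hb => ?_⟩
  show x ∈ L ↔ (!b) = true
  rw [hf' x, ← hb]
  cases b <;> simp

theorem p_eq_np (h : InP CONVEX) (L : Set (List Bool)) (hL : InNP (Lang L)) : InP (Lang L) := by
  obtain ⟨f, hf, hf'⟩ := np_reduces L hL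
  obtain ⟨g, hg, hg'⟩ := h
  refine ⟨fun x : List Bool => !(g (f x)), ?_, fun (x : List Bool) => ?_⟩
  · have h1 := NPC.comp_of_polyTime hf
    have h2 := Comp.reindex (NPC.comp_of_polyTime hg) f
    have h3 : Comp (id : List Bool → List Bool) (fun x => D.encD (enc (g (f x)))) :=
      NPC.comp_of_bitCode (h1.trans h2)
    have h4 : Poly (fun b : Bool => !b) := Poly.not Poly.id
    have h5 : Comp (fun x : List Bool => D.encD (enc (g (f x))))
        (fun x => D.encD (enc (!(g (f x))))) := Comp.reindex h4 (fun x => g (f x))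
    exact NPC.polyTime_of_comp (NPC.comp_bitCode (h3.trans h5))
  · show (!(g (f x))) = true ↔ x ∈ L
    rw [hf' x, ← hg']
    cases g (f x) <;> simp

/-- **CONVEX is coNP-hard** under polynomial-time many-one reductions, and **NP-hard** under
polynomial-time Turing reductions, even with a single query; in particular, if CONVEX is in P then
P = NP. -/
theorem result : CoNPHard CONVEX ∧ NPHardOneQuery CONVEX ∧
    (InP CONVEX → ∀ L : Set (List Bool), InNP (Lang L) → InP (Lang L)) :=
  ⟨coNPHard, npHardOneQuery, p_eq_np⟩

end Pool.Agent.Results.MP_ffc974_lc.ConvexityHard
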